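import Pool.Agent.Helper18.EW.Goals
import Pool.Agent.Helper63.Hw.H1
import Pool.Agent.Helper62.Hw.H4
import Pool.Agent.Helper38.Hw.H6

/-! # En (number of the started points before the row `J`) -/

set_option autoImplicit false

namespace Pool.Agent.Helper61.EW

open Finset
open Pool.Agent.Helper18.EW
open Pool.Agent.Helper43.Hw (T na va lz Play aa ac sc oo sk U Dd Sd Pn nx bb np)

/-- the skips between the rows `z` and `z + X` -/
theorem sum_sk_le (μ : ℕ) (κ x : ℕ → ℕ) (z X : ℕ) :
    ∑ i ∈ range X, sk μ κ x (z + i) ≤ X + μ := by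
  unfold sk
  have g1 : ∑ i ∈ range X, ((range (z + i)).filter (fun t => κ t < κ (z + i) ∧ 0 < x t ∧
      μ + t = x t + (z + i))).card = ((range X).biUnion fun i =>
      (range (z + i)).filter (fun t => κ t < κ (z + i) ∧ 0 < x t ∧
        μ + t = x t + (z + i))).card := by
    refine (Finset.card_biUnion fun i _ j _ hij => ?_).symm
    show Disjoint _ _
    rw [Finset.disjoint_left]
    intro t ht ht'
    rw [mem_filter] at ht ht'
    omega
  rw [g1]
  have g2 : ((range X).biUnion fun i =>
      (range (z + i)).filter (fun t => κ t < κ (z + i) ∧ 0 < x t ∧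
        μ + t = x t + (z + i))) ⊆ Ico (z - μ) (z + X) := by
    intro t ht
    rw [mem_biUnion] at ht
    obtain ⟨i, hi, ht⟩ := ht
    rw [mem_filter, mem_range] at ht
    rw [mem_range] at hi
    rw [mem_Ico]
    omega
  refine (card_le_card g2).trans ?_
  rw [Nat.card_Ico]
  omega

theorem goalEn (h6 : GoalE6) (h6a : GoalE6a) : GoalEn := by
  intro μ R N K b l Lg q β v τ s ℓ κ x hPh hlτ
  have hPar := hPh.par
  have hLen := hPh.len
  have hP := hPh.play
  -- parameters
  have hb : 2 ^ 40 ≤ b := by
    have g1 := hPar.b1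
    have g2 := hPar.L1
    have g3 : 2 ^ 40 * 1 ≤ 2 ^ 40 * Lg := Nat.mul_le_mul_left _ g2
    omega
  have hl1 := hPar.l1
  have hμ : 1 ≤ μ := by
    have g1 := hPar.b2
    have g2 : 0 < 2 ^ 31 * b * (q + 1) ^ 2 * l := by
      have : 0 < b := by omega
      positivity
    omega
  have hR := hPar.R1
  have hlv : l ≤ 2 ^ q * v := by
    have g1 := hPh.vc
    have g2 : 2 ^ 40 * l ≤ b * l := Nat.mul_le_mul_right _ hb
    omega
  have hτJ : τ + 1 + μ ≤ R := by
    have g1 := hPh.t2
    omega
  have hτs : τ < s := by
    have g1 := hPh.Js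
    omega
  have hτ1 : 1 ≤ τ := by
    by_contra hcon
    have e : τ = 0 := by omega
    have g1 := hPh.g1
    rw [e] at g1
    simp at g1
  have hxτ : x τ = 0 := by
    have g1 := (hPh.pa τ le_rfl hτs).2
    rw [g1]
    unfold na
    omega
  have hkτ := hPh.g2
  obtain ⟨-, h6c, -, -⟩ := h6 μ R N β ℓ κ x (τ - 1) hμ hR hLen hP hPh.ex (by omega)
  obtain ⟨hexR, hexN, hexl⟩ := hPh.ex
  -- loads
  have hload : ∀ z ≤ τ, lz μ R N κ x z ≤ ℓ z := by
    intro z hz
    rcases Nat.lt_or_ge z τ with h | h
    · exact (hexl z (by omega)).le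
    · have e : z = τ := by omega
      rw [e]
      exact hlτ
  have hoo : ∀ y ≤ τ, μ * oo μ R κ x y ≤ 4 * (β * R) + β * R / 12 + μ := by
    intro y hy
    have g1 := h6a μ R N β ℓ κ x y hμ (by omega) hLen hP (by omega)
      (fun z hz => hload z (hz.trans hy))
    have g2 := hLen.hi y (by omega)
    omega
  -- growth of the lengths
  have hst : ∀ y, 1 ≤ y → y + 1 < R → ℓ (y + 1) ≤ ℓ y + 2 * β := by
    intro y h hy
    have g1 := hLen.st y h hy
    omega
  -- the growth of `Q`
  have h4' := Pool.Agent.Helper43.Hw.PkH4.goalH4 Pool.Agent.Helper43.Hw.PkH1.goalH1 μ R N κ x hμ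
    (by omega) hP
  have h1' := (Pool.Agent.Helper43.Hw.PkH1.goalH1 μ R N κ x hμ (by omega) hP).1
  have hkN : ∀ y ≤ τ - 1, κ y < N := fun y hy =>
    lt_of_le_of_lt (Pool.Agent.Helper43.Hw.PkH6.kmono hP hy hexR) hexN
  have hstep : ∀ y < τ, κ (y + 1) * μ + x (y + 1) + ℓ y ≤
      κ y * μ + x y + ℓ (y + 1) + oo μ R κ x y + sk μ κ x y := by
    intro y hy
    rcases Nat.lt_or_ge y (τ - 1) with h | h
    · exact (h6c y h).le
    · have e : y + 1 = τ := by omega
      have g1 := (h4' y (by omega)).1 (hkN y (by omega)) (by rw [e]; exact hkτ)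
      have g2 : na μ R y = 0 := by unfold na; omega
      have g3 : na μ R (y + 1) = 0 := by unfold na; omega
      have g4 := hexl y (by omega)
      have g5 : κ y * μ ≤ κ (y + 1) * μ := Nat.mul_le_mul_right _ (hP.mono y (by omega))
      rw [g2, g3, g4, mul_zero, mul_zero, Nat.sub_mul] at g1
      have g6 := hlτ
      rw [← e] at g6
      omega
  have hgrow : ∀ z X, z + X ≤ τ → κ (z + X) * μ + x (z + X) + ℓ z ≤
      κ z * μ + x z + ℓ (z + X) + ∑ i ∈ range X, oo μ R κ x (z + i) +
        ∑ i ∈ range X, sk μ κ x (z + i) := by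
    intro z X
    induction X with
    | zero => intro _; simp
    | succ X ih =>
      intro hX
      have g1 := ih (by omega)
      have g2 := hstep (z + X) (by omega)
      rw [Finset.sum_range_succ, Finset.sum_range_succ, show z + (X + 1) = z + X + 1 by ring]
      omega
  have hlen : ∀ z X, 1 ≤ z → z + X ≤ τ → ℓ (z + X) ≤ ℓ z + X * (2 * β) := by
    intro z X hz1
    induction X with
    | zero => intro _; simp
    | succ X ih =>
      intro hX
      have g1 := ih (by omega)
      have g2 := hst (z + X) (by omega) (by omega)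
      rw [Nat.succ_mul, show z + (X + 1) = z + X + 1 by ring]
      omega
  -- the first claim
  have key : ∀ z, 1 ≤ z → z ≤ τ → l * (κ τ - aa κ x z) ≤ 40 * (τ - z) + 2 * l := by
    intro z hz1 hz
    rcases Nat.lt_or_ge z τ with hzτ | hzτ
    · set X := τ - z with hX
      have hzX : z + X = τ := by omega
      have e3 : κ z * μ + x z ≤ μ * aa κ x z := by
        have g1 := hP.lt z (by omega)
        unfold aa
        split_ifs with h
        · rw [mul_add, mul_one, mul_comm μ]; omega
        · rw [add_zero, mul_comm μ]; omega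
      have e5 := hgrow z X hzX.le
      have e4 := hlen z X hz1 hzX.le
      rw [hzX, hxτ, add_zero] at e5
      rw [hzX] at e4
      have e7 := sum_sk_le μ κ x z X
      have e6 : μ * ∑ i ∈ range X, oo μ R κ x (z + i) ≤
          X * (4 * (β * R) + β * R / 12 + μ) := by
        rw [Finset.mul_sum]
        have := Finset.sum_le_card_nsmul (range X) (fun i => μ * oo μ R κ x (z + i))
          (4 * (β * R) + β * R / 12 + μ) (fun i hi => by
            rw [mem_range] at hi
            exact hoo (z + i) (by omega))
        rw [card_range, smul_eq_mul] at this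
        exact this
      set A := ∑ i ∈ range X, oo μ R κ x (z + i) with hA
      set B := ∑ i ∈ range X, sk μ κ x (z + i) with hB
      have e8 : μ * (κ τ - aa κ x z) ≤ X * (2 * β) + A + B := by
        rw [Nat.mul_sub, mul_comm μ (κ τ)]
        omega
      have e9 : μ * (μ * (κ τ - aa κ x z)) ≤ 5 * X * (β * R) + μ * μ := by
        calc μ * (μ * (κ τ - aa κ x z)) ≤ μ * (X * (2 * β) + A + B) :=
              Nat.mul_le_mul_left _ e8
          _ = μ * (X * (2 * β)) + μ * A + μ * B := by ring
          _ ≤ μ * (X * (2 * β)) + X * (4 * (β * R) + β * R / 12 + μ) + μ * (X + μ) := by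
              have := Nat.mul_le_mul_left μ e7
              omega
          _ = X * (2 * (β * μ) + 2 * μ + β * R / 12 + 4 * (β * R)) + μ * μ := by ring
          _ ≤ X * (β * R + 4 * (β * R)) + μ * μ := by
              have g1 : μ ≤ β * μ := Nat.le_mul_of_pos_left _ hLen.b1
              have g2 : β * (100 * μ) ≤ β * R := Nat.mul_le_mul_left _ hR
              have g3 : β * (100 * μ) = 100 * (β * μ) := by ring
              have g4 : 2 * (β * μ) + 2 * μ + β * R / 12 + 4 * (β * R) ≤
                  β * R + 4 * (β * R) := by omega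
              have := Nat.mul_le_mul_left X g4
              omega
          _ = 5 * X * (β * R) + μ * μ := by ring
      have e10 : (μ * μ) * (l * (κ τ - aa κ x z)) ≤ (μ * μ) * (40 * X + l) := by
        calc (μ * μ) * (l * (κ τ - aa κ x z)) = l * (μ * (μ * (κ τ - aa κ x z))) := by ring
          _ ≤ l * (5 * X * (β * R) + μ * μ) := Nat.mul_le_mul_left _ e9
          _ = 5 * X * (l * (β * R)) + l * (μ * μ) := by ring
          _ ≤ 5 * X * (8 * μ ^ 2) + l * (μ * μ) := by
              have := Nat.mul_le_mul_left (5 * X) hPh.hi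
              omega
          _ = (μ * μ) * (40 * X + l) := by ring
      have e11 := Nat.le_of_mul_le_mul_left e10 (Nat.mul_pos hμ hμ)
      omega
    · have e : z = τ := by omega
      rw [e]
      have g1 : κ τ - aa κ x τ = 0 := by
        unfold aa
        omega
      rw [g1, mul_zero]
      exact Nat.zero_le _
  refine ⟨key, ?_⟩
  intro X hX
  set J := R - 1 - μ with hJ
  have hJs : J < s := by
    have g1 := hPh.Js
    omega
  have hτJ' : τ ≤ J := by omega
  have haaJ : aa κ x J = κ τ := by
    have g1 := hPh.pa J hτJ' hJs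
    have g2 : x J = 0 := by
      rw [g1.2]
      unfold na
      omega
    unfold aa
    rw [g1.1, g2]
    simp
  have e1 : np μ R N κ x X ≤ κ τ - aa κ x (J - X) := by
    have g0 : ((range N).filter (fun c => R - 1 - μ < ac R κ x c + X ∧
        ac R κ x c ≤ R - 1 - μ)).card ≤ (Ico (aa κ x (J - X)) (κ τ)).card := by
      refine card_le_card fun c hc => ?_
      rw [mem_filter, mem_range] at hc
      rw [mem_Ico]
      have g1 := (h1' c (J - X) (by omega)).2
      have g2 := (h1' c J (by omega)).2
      rw [haaJ] at g2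
      refine ⟨g1.2 (by omega), ?_⟩
      by_contra hcon
      have := g2.1 (by omega)
      omega
    rw [Nat.card_Ico] at g0
    exact g0
  rcases Nat.lt_or_ge τ (J - X) with h | h
  · have g1 := (hPh.pa (J - X) h.le (by omega)).1
    have g2 : κ τ - aa κ x (J - X) = 0 := by
      unfold aa
      omega
    rw [g2] at e1
    have g3 : np μ R N κ x X = 0 := by omega
    rw [g3, mul_zero]
    exact Nat.zero_le _
  · have g1 := key (J - X) (by omega) h
    have g2 := Nat.mul_le_mul_left l e1
    omega

end Pool.Agent.Helper61.EW
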